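import Mathlib

namespace Pool.Agent.Results.MP_04143b_an.Upper

open Set

lemma clamp (a : ℕ → ℝ) (j : ℕ) (u : ℝ) (h1 : (j : ℝ) ≤ u) (h2 : u ≤ j + 1) (n : ℕ) (hn : j + 1 ≤ n) :
    a 0 + ∑ i ∈ Finset.range n, (a (i + 1) - a i) * max 0 (min 1 (u - i)) =
      a j + (a (j + 1) - a j) * (u - j) := by
  induction n, hn using Nat.le_induction with
  | base =>
    rw [Finset.sum_range_succ, min_eq_right (by linarith), max_eq_right (by linarith),
      Finset.sum_congr rfl (g := fun i => a (i + 1) - a i), Finset.sum_range_sub]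
    · ring
    · intro i hi
      have : (i : ℝ) + 1 ≤ j := by exact_mod_cast Finset.mem_range.1 hi
      rw [min_eq_left (by linarith), max_eq_right zero_le_one, mul_one]
  | succ m hm ih =>
    have : (j : ℝ) + 1 ≤ m := by exact_mod_cast hm
    rw [Finset.sum_range_succ, ← add_assoc, ih, min_eq_right (by linarith),
      max_eq_left (by linarith)]
    ring

lemma coord (n : ℕ) (hn : 1 ≤ n) (g : ℝ → ℝ)
    (hg : ∀ s ∈ Icc (0 : ℝ) 1, ∀ t ∈ Icc (0 : ℝ) 1, |g s - g t| ≤ |s - t|) :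
    ∃ φ : ℝ → ℝ, Continuous φ ∧
      (∀ j : ℕ, j < n → MonotoneOn φ (Icc ((j : ℝ) / n) ((j + 1) / n)) ∨
        AntitoneOn φ (Icc ((j : ℝ) / n) ((j + 1) / n))) ∧
      ∀ t ∈ Icc (0 : ℝ) 1, |g t - φ t| ≤ 1 / (2 * n) := by
  have n0 : (0 : ℝ) < n := by exact_mod_cast hn
  set a : ℕ → ℝ := fun i => g (i / n) with ha
  refine ⟨fun t => a 0 + ∑ i ∈ Finset.range n, (a (i + 1) - a i) * max 0 (min 1 (n * t - i)),
    by fun_prop, ?_, ?_⟩
  · intro j hj
    have e : ∀ t ∈ Icc ((j : ℝ) / n) ((j + 1) / n),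
        a 0 + ∑ i ∈ Finset.range n, (a (i + 1) - a i) * max 0 (min 1 (n * t - i)) =
          a j + (a (j + 1) - a j) * (n * t - j) := fun t ht =>
      clamp a j _ (by have := (div_le_iff₀ n0).1 ht.1; linarith)
        (by have := (le_div_iff₀ n0).1 ht.2; linarith) n hj
    rcases le_total (a j) (a (j + 1)) with h | h
    · left; intro s hs t ht hst
      simp only [e s hs, e t ht]
      nlinarith [mul_nonneg (sub_nonneg.2 h) (mul_nonneg n0.le (sub_nonneg.2 hst))]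
    · right; intro s hs t ht hst
      simp only [e s hs, e t ht]
      nlinarith [mul_nonneg (sub_nonneg.2 h) (mul_nonneg n0.le (sub_nonneg.2 hst))]
  · intro t ht
    obtain ⟨j, hj, h1, h2⟩ : ∃ j : ℕ, j + 1 ≤ n ∧ (j : ℝ) ≤ n * t ∧ n * t ≤ j + 1 := by
      have p : 0 ≤ (n : ℝ) * t := mul_nonneg n0.le ht.1
      by_cases h : ⌊(n : ℝ) * t⌋₊ + 1 ≤ n
      · exact ⟨_, h, Nat.floor_le p, (Nat.lt_floor_add_one _).le⟩
      · have q : (n : ℝ) ≤ n * t := (Nat.le_floor_iff p).1 (by omega)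
        have r : ((n - 1 : ℕ) : ℝ) = n - 1 := by rw [Nat.cast_sub hn]; simp
        refine ⟨n - 1, by omega, by rw [r]; linarith, by rw [r]; nlinarith [ht.2]⟩
    simp only [clamp a j _ h1 h2 n hj]
    have hj' : (j : ℝ) + 1 ≤ n := by exact_mod_cast hj
    have j0 : (0 : ℝ) ≤ j := Nat.cast_nonneg j
    have A := hg t ht (j / n) ⟨by positivity, (div_le_one n0).2 (by linarith)⟩
    have B := hg t ht ((j + 1) / n) ⟨by positivity, (div_le_one n0).2 hj'⟩
    have ea : a j = g (j / n) := rfl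
    have eb : a (j + 1) = g ((j + 1) / n) := by simp [ha]
    rw [← ea, show t - j / n = (n * t - j) / n by field_simp,
      abs_of_nonneg (div_nonneg (sub_nonneg.2 h1) n0.le)] at A
    rw [← eb, show t - (j + 1) / n = -((1 - (n * t - j)) / n) by field_simp; ring, abs_neg,
      abs_of_nonneg (div_nonneg (by linarith : 0 ≤ 1 - (n * t - j)) n0.le)] at B
    have u0 : 0 ≤ n * t - j := by linarith
    have u1 : n * t - j ≤ 1 := by linarith
    generalize (n : ℝ) * t - j = u at A B u0 u1 ⊢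
    have k0 : 0 < (n : ℝ)⁻¹ := inv_pos.2 n0
    rw [show 1 / (2 * (n : ℝ)) = (n : ℝ)⁻¹ / 2 by field_simp]
    rw [div_eq_mul_inv] at A B
    generalize (n : ℝ)⁻¹ = k at A B k0 ⊢
    rw [abs_le] at A B ⊢
    have w := mul_nonneg k0.le (sq_nonneg (2 * u - 1))
    constructor
    · nlinarith [mul_le_mul_of_nonneg_left A.1 (sub_nonneg.2 u1), mul_le_mul_of_nonneg_left B.1 u0]
    · nlinarith [mul_le_mul_of_nonneg_left A.2 (sub_nonneg.2 u1), mul_le_mul_of_nonneg_left B.2 u0]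

/-- Every curve with a 1-Lipschitz parametrisation on `[0,1]` (box metric on `ℝ × ℝ`) is within
Hausdorff distance `1/(2n)` of a curve whose coordinates have `n` sections of monotonicity. -/
theorem result (n : ℕ) (hn : 1 ≤ n) (γ : ℝ → ℝ × ℝ) (hγ : LipschitzOnWith 1 γ (Set.Icc 0 1)) :
    ∃ φ ψ : ℝ → ℝ, ContinuousOn φ (Set.Icc 0 1) ∧ ContinuousOn ψ (Set.Icc 0 1) ∧
      (∀ j : ℕ, j < n → MonotoneOn φ (Set.Icc ((j : ℝ) / n) ((j + 1) / n)) ∨
        AntitoneOn φ (Set.Icc ((j : ℝ) / n) ((j + 1) / n))) ∧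
      (∀ j : ℕ, j < n → MonotoneOn ψ (Set.Icc ((j : ℝ) / n) ((j + 1) / n)) ∨
        AntitoneOn ψ (Set.Icc ((j : ℝ) / n) ((j + 1) / n))) ∧
      Metric.hausdorffEDist (γ '' Set.Icc 0 1) ((fun t => (φ t, ψ t)) '' Set.Icc 0 1) ≤
        ENNReal.ofReal (1 / (2 * n)) := by
  have L : ∀ s ∈ Icc (0 : ℝ) 1, ∀ t ∈ Icc (0 : ℝ) 1, dist (γ s) (γ t) ≤ |s - t| := by
    intro s hs t ht
    simpa [Real.dist_eq] using hγ.dist_le_mul s hs t ht
  obtain ⟨φ, c1, m1, e1⟩ := coord n hn (fun t => (γ t).1) fun s hs t ht =>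
    (le_max_left _ _).trans (L s hs t ht)
  obtain ⟨ψ, c2, m2, e2⟩ := coord n hn (fun t => (γ t).2) fun s hs t ht =>
    (le_max_right _ _).trans (L s hs t ht)
  have d : ∀ t ∈ Icc (0 : ℝ) 1, edist (γ t) (φ t, ψ t) ≤ ENNReal.ofReal (1 / (2 * n)) := by
    intro t ht
    rw [edist_dist]
    exact ENNReal.ofReal_le_ofReal (max_le (e1 t ht) (e2 t ht))
  refine ⟨φ, ψ, c1.continuousOn, c2.continuousOn, m1, m2,
    Metric.hausdorffEDist_le_of_mem_edist ?_ ?_⟩
  · rintro _ ⟨t, ht, rfl⟩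
    exact ⟨_, mem_image_of_mem _ ht, d t ht⟩
  · rintro _ ⟨t, ht, rfl⟩
    exact ⟨_, mem_image_of_mem _ ht, by rw [edist_comm]; exact d t ht⟩

end Pool.Agent.Results.MP_04143b_an.Upper
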